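import Pool.Agent.N132.IX.StmDefs
import Pool.Agent.TH133.Dual

/-!
IX/L8: the filtration by composites of numerically trivial correspondences is multiplicative.
-/

open CategoryTheory AlgebraicGeometry

universe u v w

namespace Pool.Agent.N169.IX

open Module Filter Topology
open Pool.Agent.H914 Pool.Agent.H914.VarClass Pool.Agent.H914.VarClass.Obj
  Pool.Agent.H914.WeilCohomology Pool.Agent.W492.BB Pool.Agent.W550.Corr Pool.Agent.Y133.Half
open Pool.Agent.N132.IX Pool.Agent.N132.IX.CycleTheory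

variable {k : Type u} [Field k] {𝒱 : VarClass k} {ops : CycleOps 𝒱}
  {W : WeilCohomology.{u, v} ops} {X Y Z P Q V V' : 𝒱.Obj}

variable (C : CycleTheory.{u, v, w} W)

theorem tr_cl_push (f : X ⟶ Y) (a : C.A X) : W.tr Y (C.cl Y (C.push f a)) = W.tr X (C.cl X a) := by
  have h := W.tr_push f (C.cl X a) 1
  rw [mul_one, map_one, mul_one] at h
  rw [C.cl_push]
  exact h

theorem nt_pull (f : X ⟶ Y) {Γ : C.A Y} (h : NumTriv Γ) : NumTriv (C.pull f Γ) := by
  intro w
  rw [← tr_cl_push C f, C.proj_left]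
  exact h _

theorem nt_push (f : X ⟶ Y) {Γ : C.A X} (h : NumTriv Γ) : NumTriv (C.push f Γ) := by
  intro w
  rw [← C.proj_right, tr_cl_push]
  exact h _

theorem nt_mul {Γ : C.A X} (h : NumTriv Γ) (Δ : C.A X) : NumTriv (Γ * Δ) := by
  intro w
  rw [mul_assoc]
  exact h _

theorem nt_mul' {Γ : C.A X} (h : NumTriv Γ) (Δ : C.A X) : NumTriv (Δ * Γ) := by
  rw [C.mul_comm]
  exact nt_mul C h Δ

theorem nt_comp_left {Γ : C.A (X.prod Y)} (h : NumTriv Γ) (Δ : C.A (Y.prod Z)) :
    NumTriv (C.comp Γ Δ) := by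
  rw [TheoryData.comp]
  exact nt_push C _ (nt_mul' C (nt_pull C _ h) _)

theorem nt_comp_right (Γ : C.A (X.prod Y)) {Δ : C.A (Y.prod Z)} (h : NumTriv Δ) :
    NumTriv (C.comp Γ Δ) := by
  rw [TheoryData.comp]
  exact nt_push C _ (nt_mul C (nt_pull C _ h) _)

theorem nt_tens_left {Γ : C.A (X.prod Y)} (h : NumTriv Γ) (Δ : C.A (Z.prod V)) :
    NumTriv (TH133.tens C.toTheoryData Γ Δ) := by
  rw [TH133.tens]
  exact nt_mul C (nt_pull C _ h) _

theorem nt_tens_right (Γ : C.A (X.prod Y)) {Δ : C.A (Z.prod V)} (h : NumTriv Δ) :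
    NumTriv (TH133.tens C.toTheoryData Γ Δ) := by
  rw [TH133.tens]
  exact nt_mul' C (nt_pull C _ h) _

/-- the action of a correspondence on composites -/
theorem comp_act (X : 𝒱.Obj) {j m : ℕ} {y : C.A (pw X m)} (hy : C.Composite X j m y) {n : ℕ}
    (Δ : C.A ((pw X m).prod (pw X n))) : C.Composite X j n (C.act Δ y) := by
  cases hy with
  | zero => exact Composite.zero _ _
  | succ j m' _ Γ hΓ y' hy' =>
    rw [← C.act_comp]
    exact Composite.succ j m' n _ (nt_comp_left C hΓ Δ) y' hy'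

theorem act_mem (X : 𝒱.Obj) {j m n : ℕ} {y : C.A (pw X m)} (hy : y ∈ C.fil X j m)
    (Δ : C.A ((pw X m).prod (pw X n))) : C.act Δ y ∈ C.fil X j n := by
  have h1 : Submodule.map (C.actL Δ) (C.fil X j m) ≤ C.fil X j n := by
    rw [fil, Submodule.map_span_le]
    intro z hz
    exact Submodule.subset_span (comp_act C X hz Δ)
  exact h1 (Submodule.mem_map_of_mem hy)

theorem act_mem_succ (X : 𝒱.Obj) {j m n : ℕ} {y : C.A (pw X m)} (hy : y ∈ C.fil X j m)
    {Δ : C.A ((pw X m).prod (pw X n))} (hΔ : NumTriv Δ) : C.act Δ y ∈ C.fil X (j + 1) n := by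
  have h1 : Submodule.map (C.actL Δ) (C.fil X j m) ≤ C.fil X (j + 1) n := by
    rw [fil, Submodule.map_span_le]
    intro z hz
    exact Submodule.subset_span (Composite.succ j m n Δ hΔ z hz)
  exact h1 (Submodule.mem_map_of_mem hy)

theorem pull_mem (X : 𝒱.Obj) {j m n : ℕ} {y : C.A (pw X m)} (hy : y ∈ C.fil X j m)
    (f : pw X n ⟶ pw X m) : C.pull f y ∈ C.fil X j n := by
  rw [← C.act_cograph]
  exact act_mem C X hy _

theorem fil_zero (X : 𝒱.Obj) {m : ℕ} (y : C.A (pw X m)) : y ∈ C.fil X 0 m :=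
  Submodule.subset_span (Composite.zero _ _)

/-- The filtration on `A(P)`, transported along an isomorphism with a power of `X`. -/
def Fp (X : 𝒱.Obj) {P : 𝒱.Obj} {N : ℕ} (θ : P ≅ pw X N) (j : ℕ) (z : C.A P) : Prop :=
  C.pull θ.inv z ∈ C.fil X j N

theorem Fp_act (X : 𝒱.Obj) {P P' : 𝒱.Obj} {N N' : ℕ} (θ : P ≅ pw X N) (θ' : P' ≅ pw X N') {j : ℕ}
    {z : C.A P} (hz : Fp C X θ j z) {Γ : C.A (P.prod P')} (hΓ : NumTriv Γ) :
    Fp C X θ' (j + 1) (C.act Γ z) := by
  have e1 : z = C.act (C.cograph θ.hom) (C.pull θ.inv z) := by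
    rw [C.act_cograph, ← C.pull_comp, θ.hom_inv_id, C.pull_id]
  unfold Fp at hz ⊢
  rw [← C.act_cograph θ'.inv, e1, ← C.act_comp, ← C.act_comp]
  exact act_mem_succ C X hz (nt_comp_right C _ (nt_comp_left C hΓ _))

theorem ext_mem (X : 𝒱.Obj) {i j m n : ℕ} {x : C.A (pw X m)} {y : C.A (pw X n)}
    (hx : C.Composite X i m x) (hy : C.Composite X j n y) :
    Fp C X (pwAdd X m n) (i + j) (C.ext x y) := by
  have hc : ∀ {Y Z V : 𝒱.Obj} (Δ : C.A (Y.prod Z)) (f : V ⟶ Y.prod Z) (c : C.A V),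
      C.pull f Δ * c = c * C.pull f Δ := fun _ _ _ => C.mul_comm _ _
  induction hx with
  | zero m x =>
    induction hy with
    | zero n y => exact fil_zero C X _
    | succ j n' n Δ hΔ y' hy' ih =>
      have e1 : C.ext x (C.act Δ y') =
          C.act (TH133.tens C.toTheoryData (dg C.toTheoryData _) Δ) (C.ext x y') := by
        rw [TH133.act_tens_ext C.toTheoryData _ _ (fun f c => hc Δ f c), act_dg]
      rw [e1]
      exact Fp_act C X _ _ ih (nt_tens_right C _ hΔ)
  | succ i m' m Γ hΓ x' hx' ih =>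
    have e1 : C.ext (C.act Γ x') y =
        C.act (TH133.tens C.toTheoryData Γ (dg C.toTheoryData _)) (C.ext x' y) := by
      rw [TH133.act_tens_ext C.toTheoryData _ _ (fun f c => hc _ f c), act_dg]
    rw [e1, show i + 1 + j = i + j + 1 by ring]
    exact Fp_act C X _ _ ih (nt_tens_left C hΓ _)

theorem mul_eq (x y : C.A X) : x * y = C.pull (Obj.lift (𝟙 X) (𝟙 X)) (C.ext x y) := by
  rw [TheoryData.ext, map_mul, ← C.pull_comp, ← C.pull_comp, lift_fst, lift_snd, C.pull_id,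
    C.pull_id]

theorem comp_mul (X : 𝒱.Obj) {i j n : ℕ} {x y : C.A (pw X n)} (hx : C.Composite X i n x)
    (hy : C.Composite X j n y) : x * y ∈ C.fil X (i + j) n := by
  have h1 := ext_mem C X hx hy
  have e1 : x * y = C.pull (Obj.lift (𝟙 (pw X n)) (𝟙 (pw X n)) ≫ (pwAdd X n n).hom)
      (C.pull (pwAdd X n n).inv (C.ext x y)) := by
    rw [mul_eq, C.pull_comp, ← C.pull_comp (pwAdd X n n).hom, Iso.hom_inv_id, C.pull_id]
  rw [e1]
  exact pull_mem C X h1 _

end Pool.Agent.N169.IX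

namespace Pool.Agent.N132.IX

open Module Filter Topology
open Pool.Agent.H914 Pool.Agent.H914.VarClass Pool.Agent.H914.VarClass.Obj
  Pool.Agent.H914.WeilCohomology Pool.Agent.W492.BB Pool.Agent.W550.Corr Pool.Agent.Y133.Half

variable {k : Type u} [Field k] {𝒱 : VarClass k} {ops : CycleOps 𝒱}
  {W : WeilCohomology.{u, v} ops} {X Y Z P Q V : 𝒱.Obj}

section parts

variable (C : CycleTheory.{u, v, w} W)

/-- IX/L8. The filtration is multiplicative. -/
theorem fil_mul (X : 𝒱.Obj) {i j n : ℕ} {x y : C.A (pw X n)} (hx : x ∈ C.fil X i n)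
    (hy : y ∈ C.fil X j n) : x * y ∈ C.fil X (i + j) n := by
  have h1 : ∀ a, C.Composite X i n a → ∀ y ∈ C.fil X j n, a * y ∈ C.fil X (i + j) n := by
    intro a ha y hy
    have h2 : Submodule.map (LinearMap.mulLeft W.K a) (C.fil X j n) ≤ C.fil X (i + j) n := by
      rw [CycleTheory.fil, Submodule.map_span_le]
      intro b hb
      exact Pool.Agent.N169.IX.comp_mul C X ha hb
    exact h2 (Submodule.mem_map_of_mem hy)
  have h3 : Submodule.map (LinearMap.mulRight W.K y) (C.fil X i n) ≤ C.fil X (i + j) n := by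
    rw [CycleTheory.fil, Submodule.map_span_le]
    intro a ha
    exact h1 a ha y hy
  exact h3 (Submodule.mem_map_of_mem hx)

end parts

end Pool.Agent.N132.IX
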